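import Pool.Agent.H65.CRZ.TD

/-!
Board crz_modules, row MS: mean squares on the left line, with a shift.
-/

set_option autoImplicit false

open NumberField NumberField.InfinitePlace Complex Filter Topology MeasureTheory

namespace Pool.Agent.H23.CRZ

open Pool.Agent.H28.RC Pool.Agent.H25.HK Pool.Agent.H37.CV
open Pool.Agent.H65.CRZ

/-- the logarithm of `q` is large -/
theorem log_large (X : ℝ) : ∃ q₁ : ℕ, ∀ q : ℕ, q₁ ≤ q → X ≤ Real.log q := by
  refine ⟨⌈Real.exp X⌉₊, fun q hq => ?_⟩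
  have h1 : Real.exp X ≤ q := (Nat.le_ceil _).trans (by exact_mod_cast hq)
  have h2 := Real.log_le_log (Real.exp_pos X) h1
  rwa [Real.log_exp] at h2

/-- the parameters `log q`, `L` -/
theorem Lq_bds (K : Type) [Field K] [NumberField K] (c : ℝ) (hc : 0 < c)
    (hcA : ∀ q : ℕ, q.Prime → cA K (qi K q) = c * q ∧ nm (qi K q) = (q : ℝ) ^ 2) :
    ∃ q₁ : ℕ, ∀ q : ℕ, q.Prime → q₁ ≤ q → 1 ≤ Real.log q ∧ Real.log q ≤ Lq K q ∧
      Lq K q ≤ 4 * Real.log q ∧ Lq K q = 2 * Real.log c + 2 * Real.log q ∧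
      2 * |Real.log c| ≤ Real.log q := by
  obtain ⟨q₁, h1⟩ := log_large (1 + 2 * |Real.log c|)
  refine ⟨q₁, fun q hq hqq => ?_⟩
  have h2 := h1 q hqq
  have h3 := abs_nonneg (Real.log c)
  have h4 := le_abs_self (Real.log c)
  have h5 := neg_abs_le (Real.log c)
  have hq0 : (0 : ℝ) < q := by exact_mod_cast hq.pos
  have h6 : Lq K q = 2 * Real.log c + 2 * Real.log q := by
    unfold Lq
    rw [(hcA q hq).1, Real.log_mul hc.ne' hq0.ne']
    ring
  refine ⟨by linarith, ?_, ?_, h6, by linarith⟩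
  · rw [h6]
    linarith
  · rw [h6]
    linarith

theorem ofReal_finsum {κ : Sort*} (g : κ → ℝ) :
    ((∑ᶠ i, g i : ℝ) : ℂ) = ∑ᶠ i, ((g i : ℝ) : ℂ) :=
  AddMonoidHom.map_finsum_of_injective (Complex.ofRealHom.toAddMonoidHom)
    Complex.ofReal_injective g

theorem ofReal_finsum_mem {ι : Type*} (s : Set ι) (f : ι → ℝ) :
    ((∑ᶠ i ∈ s, f i : ℝ) : ℂ) = ∑ᶠ i ∈ s, ((f i : ℝ) : ℂ) := by
  rw [ofReal_finsum]
  exact finsum_congr fun i => ofReal_finsum _

theorem pf_MS (h1 : T_B) (h2 : T_BB) (h3 : T_CQ) (h4 : T_LF) : T_MS := by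
  intro K _ _ _ hK R ε₁ hR hε hε'
  obtain ⟨-, c, hc, hcA⟩ := h3 K hK
  obtain ⟨B, hB, hBη⟩ := h1 K hK ε₁ (R / 4) (2 * R) hε hε' (by positivity) (by positivity)
  have hκ : 0 < (1 - 2 * ε₁) / 4 := by linarith
  obtain ⟨C, hC, hCb⟩ := h2 R ((1 - 2 * ε₁) / 4) hR hκ (by linarith)
  obtain ⟨q₁, hq₁⟩ := Lq_bds K c hc hcA
  refine ⟨C, B, hC, hB, fun η hη => ?_⟩
  obtain ⟨q₂, hq₂⟩ := hBη η hη
  refine ⟨max q₁ q₂, fun q hq hqq a u ha => ?_⟩
  obtain ⟨l1, l2, l3, l4, l5⟩ := hq₁ q hq ((le_max_left _ _).trans hqq)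
  have hq0 : (0 : ℝ) < q := by exact_mod_cast hq.pos
  set L := Lq K q with hL
  have hL0 : 0 < L := by linarith
  have hlogq : 0 < Real.log q := by linarith
  have haL : L * ‖a‖ ≤ R / 2 := by
    have := mul_le_mul_of_nonneg_left ha hL0.le
    refine this.trans (le_of_eq ?_)
    field_simp
  set α : ℂ := -(R / L : ℝ) + a with hα
  have hLC : (L : ℂ) ≠ 0 := by exact_mod_cast hL0.ne'
  have e1 : ‖α‖ ≤ 2 * R / Real.log q := by
    have h5 : ‖α‖ ≤ R / L + R / (2 * L) := by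
      refine (norm_add_le _ _).trans (add_le_add ?_ ha)
      rw [norm_neg, Complex.norm_real, Real.norm_eq_abs, abs_of_pos (by positivity)]
    have h6 : R / L + R / (2 * L) ≤ 2 * R / L := by
      have : 2 * R / L - (R / L + R / (2 * L)) = R / (2 * L) := by
        field_simp
        ring
      have h7 : 0 ≤ R / (2 * L) := by positivity
      linarith
    have h8 : 2 * R / L ≤ 2 * R / Real.log q :=
      div_le_div_of_nonneg_left (by positivity) hlogq l2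
    exact h5.trans (h6.trans h8)
  have e2 : ‖(starRingEnd ℂ) α‖ ≤ 2 * R / Real.log q := by
    rw [RCLike.norm_conj]
    exact e1
  have e3 : R / 4 / Real.log q ≤ ‖α + (starRingEnd ℂ) α‖ := by
    have h5 : α + (starRingEnd ℂ) α = ((2 * α.re : ℝ) : ℂ) := by
      rw [Complex.add_conj]
    have h6 : α.re = -(R / L) + a.re := by
      rw [hα, Complex.add_re, Complex.neg_re, Complex.ofReal_re]
    have h7 : a.re ≤ R / (2 * L) := (Complex.re_le_norm a).trans ha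
    have h8 : R / (2 * L) + R / (2 * L) = R / L := by
      field_simp
      ring
    have h9 : R / L ≤ -(2 * α.re) := by
      rw [h6]
      linarith
    rw [h5, Complex.norm_real, Real.norm_eq_abs]
    have h10 : R / 4 / Real.log q ≤ R / L := by
      rw [div_div]
      exact div_le_div_of_nonneg_left hR.le hL0 l3
    exact h10.trans (h9.trans (neg_le_abs _))
  have key := hq₂ q hq ((le_max_right _ _).trans hqq) α ((starRingEnd ℂ) α) u e1 e2 e3
  have hs : (1 / 2 + α + u * I : ℂ) = (sg0 K R q : ℂ) + u * I + a := by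
    rw [hα]
    unfold sg0
    rw [← hL]
    push_cast
    ring
  have hml : ∀ ψ : Ideal (𝓞 K) → ℂ, pol (Mq ε₁ q) (cu K (Mq ε₁ q) u) ψ =
      ml (Mq ε₁ q) (sg0 K R q) ψ (sg0 K R q + u * I) := by
    intro ψ
    unfold pol ml cu
    refine Finset.sum_congr rfl fun S _ => ?_
    have h5 : ((sg0 K R q : ℂ) + u * I + 1 / 2 - (sg0 K R q : ℂ)) = 1 / 2 + u * I := by ring
    rw [h5]
    ring
  have hterm : ∀ χ : RCC K, Zx χ (1 / 2 + α + u * I) *
      (starRingEnd ℂ) (Zx χ (1 / 2 + (starRingEnd ℂ) ((starRingEnd ℂ) α) + u * I)) *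
        ((‖pol (Mq ε₁ q) (cu K (Mq ε₁ q) u) χ.ψ‖ ^ 2 : ℝ) : ℂ) =
      ((‖Zx χ (sg0 K R q + u * I + a) *
        ml (Mq ε₁ q) (sg0 K R q) χ.ψ (sg0 K R q + u * I)‖ ^ 2 : ℝ) : ℂ) := by
    intro χ
    rw [Complex.conj_conj, hs, hml, Complex.mul_conj, Complex.normSq_eq_norm_sq, norm_mul, mul_pow]
    push_cast
    ring
  have hsum : ((∑ᶠ χ ∈ Pr K (qi K q), ‖Zx χ (sg0 K R q + u * I + a) *
      ml (Mq ε₁ q) (sg0 K R q) χ.ψ (sg0 K R q + u * I)‖ ^ 2 : ℝ) : ℂ) =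
      ∑ᶠ χ ∈ Pr K (qi K q), Zx χ (1 / 2 + α + u * I) *
        (starRingEnd ℂ) (Zx χ (1 / 2 + (starRingEnd ℂ) ((starRingEnd ℂ) α) + u * I)) *
          ((‖pol (Mq ε₁ q) (cu K (Mq ε₁ q) u) χ.ψ‖ ^ 2 : ℝ) : ℂ) := by
    rw [ofReal_finsum_mem]
    exact finsum_congr fun χ => finsum_congr fun _ => (hterm χ).symm
  rw [← hsum] at key
  set S : ℝ := ∑ᶠ χ ∈ Pr K (qi K q), ‖Zx χ (sg0 K R q + u * I + a) *
      ml (Mq ε₁ q) (sg0 K R q) χ.ψ (sg0 K R q + u * I)‖ ^ 2 with hS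
  -- the main term
  have hl : Real.log (Mq ε₁ q) = (1 - 2 * ε₁) * Real.log q := by
    unfold Mq
    rw [Real.log_rpow hq0]
  have hlc1 := le_abs_self (Real.log c)
  have hlc2 := neg_abs_le (Real.log c)
  have hl1 : (1 - 2 * ε₁) / 4 * L ≤ Real.log (Mq ε₁ q) := by
    rw [hl]
    have h5 := mul_le_mul_of_nonneg_left l3 hκ.le
    linarith
  have hl2 : Real.log (Mq ε₁ q) ≤ L := by
    rw [hl]
    have h5 : 0 ≤ 2 * ε₁ * Real.log q := by positivity
    linarith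
  have hn1 : ‖(L : ℂ) * α + R‖ ≤ R / 2 := by
    have h5 : (L : ℂ) * α + R = L * a := by
      rw [hα]
      push_cast
      field_simp
      ring
    rw [h5, norm_mul, Complex.norm_real, Real.norm_eq_abs, abs_of_pos hL0]
    exact haL
  have hn2 : ‖(L : ℂ) * (starRingEnd ℂ) α + R‖ ≤ R / 2 := by
    have h5 : (L : ℂ) * (starRingEnd ℂ) α + R = (starRingEnd ℂ) ((L : ℂ) * α + R) := by
      rw [map_add (starRingEnd ℂ) ((L : ℂ) * α) (R : ℂ), map_mul (starRingEnd ℂ) (L : ℂ) α,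
        Complex.conj_ofReal, Complex.conj_ofReal]
    rw [h5, RCLike.norm_conj]
    exact hn1
  obtain ⟨g1, g2⟩ := hCb L (Real.log (Mq ε₁ q)) ((L : ℂ) * α) ((L : ℂ) * (starRingEnd ℂ) α) hL0
    hl1 hl2 hn1 hn2
  have g3 : (L : ℂ) * α / L = α := mul_div_cancel_left₀ _ hLC
  have g4 : (L : ℂ) * (starRingEnd ℂ) α / L = (starRingEnd ℂ) α := mul_div_cancel_left₀ _ hLC
  rw [g3, g4] at g1
  have g5 : ‖Bm α ((starRingEnd ℂ) α) L (Real.log (Mq ε₁ q))‖ ≤ C := by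
    rw [g1]
    exact g2
  have hnc : (0 : ℝ) ≤ nc (qi K q) (qi K q) := Nat.cast_nonneg _
  have g6 : ‖(S : ℂ)‖ ≤ ‖(nc (qi K q) (qi K q) : ℂ) *
      Bm α ((starRingEnd ℂ) α) L (Real.log (Mq ε₁ q))‖ + η * (1 + |u|) ^ B *
        nc (qi K q) (qi K q) := by
    have h5 := norm_le_norm_add_norm_sub' (S : ℂ) ((nc (qi K q) (qi K q) : ℂ) *
      Bm α ((starRingEnd ℂ) α) L (Real.log (Mq ε₁ q)))
    exact h5.trans (add_le_add_right key _)
  rw [Complex.norm_real, Real.norm_eq_abs, norm_mul, Complex.norm_natCast] at g6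
  have g7 := mul_le_mul_of_nonneg_left g5 hnc
  have g8 := le_abs_self S
  have g9 : (C + η * (1 + |u|) ^ B) * (nc (qi K q) (qi K q) : ℝ) =
      nc (qi K q) (qi K q) * C + η * (1 + |u|) ^ B * nc (qi K q) (qi K q) := by ring
  rw [g9]
  linarith

end Pool.Agent.H23.CRZ
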