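import Pool.Agent.H65.CRZ.TD
import Pool.Agent.H23.CRZ.MS

/-!
Board crz_modules, row BM: the main term.
-/

set_option autoImplicit false

open NumberField NumberField.InfinitePlace Complex Filter Topology MeasureTheory

namespace Pool.Agent.H23.CRZ

open Pool.Agent.H28.RC Pool.Agent.H25.HK Pool.Agent.H37.CV
open Pool.Agent.H65.CRZ

theorem one_term (r l C₁ C₂ η : ℝ) (ω e S F : ℂ) (hr : 0 < r) (hl : 0 < l) (hω : ω ≠ 0)
    (hC₂ : 0 ≤ C₂) (hF : ‖F‖ ≤ C₁ * l) (hS : ‖((r * l ^ 2 : ℝ) : ℂ) * S - F‖ ≤ η * l)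
    (he : ‖e - r‖ ≤ C₂ * ‖ω‖) :
    ‖1 / ω * e * S - F / (ω * (l : ℂ) ^ 2)‖ ≤ C₂ * (C₁ + η) / (r * l) + η / (‖ω‖ * l) := by
  have hrC : (r : ℂ) ≠ 0 := by exact_mod_cast hr.ne'
  have hlC : (l : ℂ) ≠ 0 := by exact_mod_cast hl.ne'
  have hω0 : 0 < ‖ω‖ := norm_pos_iff.2 hω
  set G : ℂ := ((r * l ^ 2 : ℝ) : ℂ) * S with hG
  have h1 : 1 / ω * e * S - F / (ω * (l : ℂ) ^ 2) =
      1 / (ω * (l : ℂ) ^ 2) * ((e - r) / r * G + (G - F)) := by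
    rw [hG]
    push_cast
    field_simp
    ring
  have h2 : ‖G‖ ≤ (C₁ + η) * l := by
    have h3 := norm_le_norm_add_norm_sub' G F
    linarith
  have h4 : ‖(e - r) / r * G + (G - F)‖ ≤ C₂ * ‖ω‖ / r * ((C₁ + η) * l) + η * l := by
    refine (norm_add_le _ _).trans (add_le_add ?_ hS)
    rw [norm_mul, norm_div, Complex.norm_real, Real.norm_eq_abs, abs_of_pos hr]
    exact mul_le_mul (div_le_div_of_nonneg_right he hr.le) h2 (norm_nonneg _) (by positivity)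
  rw [h1, norm_mul, norm_div, norm_one, norm_mul, norm_pow, Complex.norm_real, Real.norm_eq_abs,
    abs_of_pos hl]
  refine (mul_le_mul_of_nonneg_left h4 (by positivity)).trans (le_of_eq ?_)
  field_simp

theorem norm_FF_le (α β : ℂ) (l C₀ : ℝ) (hl : 0 < l) (hα : ‖α‖ ≤ C₀ / l)
    (hβ : ‖β‖ ≤ C₀ / l) : ‖Pool.Agent.H65.CRZ.FF α β l‖ ≤ (1 + C₀ + C₀ ^ 2) * l := by
  unfold Pool.Agent.H65.CRZ.FF
  have hC : 0 ≤ C₀ / l := (norm_nonneg _).trans hα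
  have h1 : ‖(l : ℂ)‖ = l := by rw [Complex.norm_real, Real.norm_eq_abs, abs_of_pos hl]
  have h2 : ‖(α + β) * (l : ℂ) ^ 2 / 2‖ ≤ (C₀ / l + C₀ / l) * l ^ 2 / 2 := by
    rw [norm_div, norm_mul, norm_pow, h1, Complex.norm_ofNat]
    have h3 := (norm_add_le α β).trans (add_le_add hα hβ)
    gcongr
  have h4 : ‖α * β * (l : ℂ) ^ 3 / 3‖ ≤ (C₀ / l) * (C₀ / l) * l ^ 3 / 3 := by
    rw [norm_div, norm_mul, norm_mul, norm_pow, h1, Complex.norm_ofNat]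
    gcongr
  have h5 := norm_add_le ((l : ℂ) + (α + β) * (l : ℂ) ^ 2 / 2) (α * β * (l : ℂ) ^ 3 / 3)
  have h6 := norm_add_le (l : ℂ) ((α + β) * (l : ℂ) ^ 2 / 2)
  rw [h1] at h6
  have h7 : l + (C₀ / l + C₀ / l) * l ^ 2 / 2 + (C₀ / l) * (C₀ / l) * l ^ 3 / 3 =
      (1 + C₀ + C₀ ^ 2 / 3) * l := by
    field_simp
    ring
  have h8 : (1 + C₀ + C₀ ^ 2 / 3) * l ≤ (1 + C₀ + C₀ ^ 2) * l := by
    refine mul_le_mul_of_nonneg_right ?_ hl.le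
    nlinarith [sq_nonneg C₀]
  linarith

theorem combine (ω F₁ F₂ T₁ T₂ g x : ℂ) (l t U X₀ C₁ κ η : ℝ) (hl : 0 < l) (ht : 0 ≤ t)
    (ht1 : t ≤ 1) (hU : 1 ≤ U) (hX : ‖x‖ ≤ X₀) (hκ : 0 < κ) (hωl : κ ≤ ‖ω‖ * l)
    (hF₂ : ‖F₂‖ ≤ C₁ * l) (h1 : ‖T₁ - F₁ / (ω * (l : ℂ) ^ 2)‖ ≤ t)
    (h2 : ‖T₂ - F₂ / (ω * (l : ℂ) ^ 2)‖ ≤ t) (hg : ‖g - 1‖ ≤ t * U) (hC₁ : 0 ≤ C₁)
    (hη : t * (1 + X₀ * (2 + C₁ / κ)) ≤ η) :
    ‖T₁ - x * g * T₂ - 1 / (ω * (l : ℂ) ^ 2) * (F₁ - x * F₂)‖ ≤ η * U := by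
  have hX0 : 0 ≤ X₀ := (norm_nonneg _).trans hX
  have hω0 : 0 < ‖ω‖ := by
    by_contra hcon
    have : ‖ω‖ = 0 := le_antisymm (not_lt.1 hcon) (norm_nonneg _)
    rw [this, zero_mul] at hωl
    linarith
  set δ₁ := T₁ - F₁ / (ω * (l : ℂ) ^ 2) with hδ₁
  set δ₂ := T₂ - F₂ / (ω * (l : ℂ) ^ 2) with hδ₂
  have e1 : T₁ - x * g * T₂ - 1 / (ω * (l : ℂ) ^ 2) * (F₁ - x * F₂) =
      δ₁ - x * (δ₂ + (g - 1) * δ₂ + (g - 1) * (F₂ / (ω * (l : ℂ) ^ 2))) := by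
    rw [hδ₁, hδ₂]
    ring
  have e2 : ‖F₂ / (ω * (l : ℂ) ^ 2)‖ ≤ C₁ / κ := by
    rw [norm_div, norm_mul, norm_pow, Complex.norm_real, Real.norm_eq_abs, abs_of_pos hl]
    have h3 : ‖F₂‖ / (‖ω‖ * l ^ 2) ≤ C₁ * l / (‖ω‖ * l ^ 2) := by gcongr
    have h4 : C₁ * l / (‖ω‖ * l ^ 2) = C₁ / (‖ω‖ * l) := by field_simp
    rw [h4] at h3
    exact h3.trans (div_le_div_of_nonneg_left hC₁ hκ hωl)
  have e3 : ‖(g - 1) * δ₂‖ ≤ t * U * t := by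
    rw [norm_mul]
    exact mul_le_mul hg h2 (norm_nonneg _) (by positivity)
  have e4 : ‖(g - 1) * (F₂ / (ω * (l : ℂ) ^ 2))‖ ≤ t * U * (C₁ / κ) := by
    rw [norm_mul]
    exact mul_le_mul hg e2 (norm_nonneg _) (by positivity)
  have e5 : ‖δ₂ + (g - 1) * δ₂ + (g - 1) * (F₂ / (ω * (l : ℂ) ^ 2))‖ ≤
      t * U * (2 + C₁ / κ) := by
    have h3 := norm_add_le (δ₂ + (g - 1) * δ₂) ((g - 1) * (F₂ / (ω * (l : ℂ) ^ 2)))
    have h4 := norm_add_le δ₂ ((g - 1) * δ₂)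
    have h5 : t ≤ t * U := by nlinarith
    have h6 : t * U * t ≤ t * U := by nlinarith [mul_nonneg ht (by linarith : (0 : ℝ) ≤ U)]
    have h7 : t * U * (2 + C₁ / κ) = t * U + t * U + t * U * (C₁ / κ) := by ring
    rw [h7]
    linarith
  have e6 : ‖x * (δ₂ + (g - 1) * δ₂ + (g - 1) * (F₂ / (ω * (l : ℂ) ^ 2)))‖ ≤
      X₀ * (t * U * (2 + C₁ / κ)) := by
    rw [norm_mul]
    exact mul_le_mul hX e5 (norm_nonneg _) hX0
  rw [e1]
  refine (norm_sub_le _ _).trans ?_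
  have h5 : t ≤ t * U := by nlinarith
  have h8 : t * U + X₀ * (t * U * (2 + C₁ / κ)) = t * (1 + X₀ * (2 + C₁ / κ)) * U := by ring
  have h9 := mul_le_mul_of_nonneg_right hη (by linarith : (0 : ℝ) ≤ U)
  linarith

theorem pf_BM (h1 : T_SD) (h2 : T_G3) (h3 : T_CQ) : T_BM := by
  intro K _ _ _ hK E ε₁ c C₀ hE hε hε' hc hC₀
  obtain ⟨-, c₀, hc₀, hcA⟩ := h3 K hK
  obtain ⟨C₃, B, hC₃, hB, hG3⟩ := h2
  obtain ⟨q₁, hq₁⟩ := Lq_bds K c₀ hc₀ hcA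
  refine ⟨B, hB, fun η hη => ?_⟩
  have hrho : 0 < rho K := dedekindZeta_residue_pos K
  -- constants
  have hε2 : 0 < 1 - 2 * ε₁ := by linarith
  set κ : ℝ := c * (1 - 2 * ε₁) with hκ
  have hκ0 : 0 < κ := mul_pos hc hε2
  set C₁ : ℝ := 1 + C₀ + C₀ ^ 2 with hC₁
  have hC₁0 : 0 < C₁ := by positivity
  set X₀ : ℝ := Real.exp (8 * C₀) with hX₀
  have hX₀0 : 0 < X₀ := Real.exp_pos _
  set D : ℝ := 1 + X₀ * (2 + C₁ / κ) with hD
  have hD0 : 0 < D := by positivity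
  set t : ℝ := min 1 (η / D) with ht
  have ht0 : 0 < t := lt_min one_pos (div_pos hη hD0)
  have ht1 : t ≤ 1 := min_le_left _ _
  have htD : t * D ≤ η := by
    have := mul_le_mul_of_nonneg_right (min_le_right 1 (η / D)) hD0.le
    rwa [div_mul_cancel₀ _ hD0.ne'] at this
  -- the function `E` near `1`
  have hder : HasDerivAt E (deriv E 1) 1 := (hE.1 1).hasDerivAt
  obtain ⟨C₂, hC₂, hO⟩ := hder.isBigO_sub.exists_pos
  rw [Asymptotics.isBigOWith_iff] at hO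
  obtain ⟨r₀, hr₀, hr⟩ := Metric.eventually_nhds_iff.1 hO
  have hEb : ∀ z : ℂ, ‖z‖ < r₀ → ‖E (1 + z) - rho K‖ ≤ C₂ * ‖z‖ := by
    intro z hz
    have h4 := @hr (1 + z) (by rw [dist_eq_norm]; simpa using hz)
    rw [hE.2.2.1] at h4
    simpa using h4
  -- the error of the quadratic form
  set η' : ℝ := min 1 (κ * t / 2) with hη'
  have hη'0 : 0 < η' := lt_min one_pos (by positivity)
  have hη'1 : η' ≤ 1 := min_le_left _ _
  have hη'2 : η' ≤ κ * t / 2 := min_le_right _ _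
  obtain ⟨M₀, hM₀, hSD⟩ := h1 K C₀ η' hC₀ hη'0
  obtain ⟨q₂, hq₂⟩ := log_large (1 + 16 * C₀ + 4 * C₀ / r₀ + 2 * C₀ * C₃ / t +
    Real.log M₀ / (1 - 2 * ε₁) + 2 * C₂ * (C₁ + 1) / (rho K * t * (1 - 2 * ε₁)))
  refine ⟨max q₁ q₂, fun q hq hqq α β u hα hβ hω => ?_⟩
  obtain ⟨l1, l2, l3, l4, l5⟩ := hq₁ q hq ((le_max_left _ _).trans hqq)
  have hlog := hq₂ q ((le_max_right _ _).trans hqq)
  have hq0 : (0 : ℝ) < q := by exact_mod_cast hq.pos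
  set Λ : ℝ := Real.log q with hΛ
  have hΛ0 : 0 < Λ := by linarith
  have hM₀log : 0 ≤ Real.log M₀ := Real.log_nonneg (by linarith)
  have p1 : 0 ≤ 4 * C₀ / r₀ := by positivity
  have p2 : 0 ≤ 2 * C₀ * C₃ / t := by positivity
  have p3 : 0 ≤ Real.log M₀ / (1 - 2 * ε₁) := by positivity
  have p4 : 0 ≤ 2 * C₂ * (C₁ + 1) / (rho K * t * (1 - 2 * ε₁)) := by positivity
  have a1 : 16 * C₀ ≤ Λ := by linarith
  have a2 : 4 * C₀ / r₀ ≤ Λ := by linarith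
  have a3 : 2 * C₀ * C₃ / t ≤ Λ := by linarith
  have a4 : Real.log M₀ / (1 - 2 * ε₁) ≤ Λ := by linarith
  have a5 : 2 * C₂ * (C₁ + 1) / (rho K * t * (1 - 2 * ε₁)) ≤ Λ := by linarith
  -- the parameters
  have hl : Real.log (Mq ε₁ q) = (1 - 2 * ε₁) * Λ := by
    unfold Mq
    rw [Real.log_rpow hq0]
  have hMpos : 0 < Mq ε₁ q := by
    unfold Mq
    positivity
  set l : ℝ := Real.log (Mq ε₁ q) with hldef
  have hl0 : 0 < l := by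
    rw [hl]
    positivity
  have hlΛ : l ≤ Λ := by
    have h4 : (1 - 2 * ε₁) * Λ = Λ - 2 * (ε₁ * Λ) := by ring
    have h5 : 0 < ε₁ * Λ := mul_pos hε hΛ0
    rw [hl, h4]
    linarith
  have hM : M₀ ≤ Mq ε₁ q := by
    have h4 : Real.log M₀ ≤ l := by
      rw [hl, mul_comm]
      exact (div_le_iff₀ hε2).1 a4
    exact (Real.log_le_log_iff (by linarith) hMpos).1 h4
  have hdl : C₀ / Λ ≤ C₀ / l := div_le_div_of_nonneg_left hC₀.le hl0 hlΛ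
  have hαl : ‖α‖ ≤ C₀ / l := hα.trans hdl
  have hβl : ‖β‖ ≤ C₀ / l := hβ.trans hdl
  have hα' : ‖-α‖ ≤ C₀ / l := by rwa [norm_neg]
  have hβ' : ‖-β‖ ≤ C₀ / l := by rwa [norm_neg]
  have hω0 : 0 < ‖α + β‖ := lt_of_lt_of_le (by positivity) hω
  have hωne : α + β ≠ 0 := norm_pos_iff.1 hω0
  have hωl : κ ≤ ‖α + β‖ * l := by
    have h4 := mul_le_mul_of_nonneg_right hω hl0.le
    refine le_trans (le_of_eq ?_) h4
    rw [hκ, hl]
    field_simp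
  have hωup : ‖α + β‖ ≤ 2 * C₀ / Λ := by
    refine (norm_add_le _ _).trans ?_
    have h4 := add_le_add hα hβ
    refine h4.trans (le_of_eq ?_)
    ring
  have hωr : ‖α + β‖ < r₀ := by
    refine lt_of_le_of_lt hωup ?_
    rw [div_lt_iff₀ hΛ0]
    rw [div_le_iff₀ hr₀] at a2
    have h4 : Λ * r₀ = r₀ * Λ := mul_comm _ _
    linarith
  -- the two terms
  have hF₁ := norm_FF_le α β l C₀ hl0 hαl hβl
  have hF₂ := norm_FF_le (-α) (-β) l C₀ hl0 hα' hβ'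
  have hsym : Pool.Agent.H65.CRZ.FF (-β) (-α) l = Pool.Agent.H65.CRZ.FF (-α) (-β) l := by
    unfold Pool.Agent.H65.CRZ.FF
    ring
  have hS₁ := hSD (Mq ε₁ q) α β hM hαl hβl
  have hS₂ := hSD (Mq ε₁ q) (-β) (-α) hM hβ' hα'
  rw [← hldef] at hS₁ hS₂
  rw [hsym] at hS₂
  have he₁ := hEb (α + β) hωr
  have he₂ : ‖E (1 - (α + β)) - rho K‖ ≤ C₂ * ‖α + β‖ := by
    have h4 := hEb (-(α + β)) (by rwa [norm_neg])
    rwa [norm_neg, ← sub_eq_add_neg] at h4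
  have t₁ := one_term (rho K) l C₁ C₂ η' (α + β) (E (1 + (α + β))) (Sd K (Mq ε₁ q) α β)
    (Pool.Agent.H65.CRZ.FF α β l) hrho hl0 hωne hC₂.le hF₁ hS₁ he₁
  have t₂ := one_term (rho K) l C₁ C₂ η' (α + β) (E (1 - (α + β))) (Sd K (Mq ε₁ q) (-β) (-α))
    (Pool.Agent.H65.CRZ.FF (-α) (-β) l) hrho hl0 hωne hC₂.le hF₂ hS₂ he₂
  have hδ : C₂ * (C₁ + η') / (rho K * l) + η' / (‖α + β‖ * l) ≤ t := by
    have h4 : C₂ * (C₁ + η') / (rho K * l) ≤ t / 2 := by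
      rw [div_le_iff₀ (by positivity)]
      rw [div_le_iff₀ (by positivity)] at a5
      have h5 : C₂ * (C₁ + η') ≤ C₂ * (C₁ + 1) :=
        mul_le_mul_of_nonneg_left (by linarith) hC₂.le
      have h6 : t / 2 * (rho K * l) = Λ * (rho K * t * (1 - 2 * ε₁)) / 2 := by
        rw [hl]
        ring
      rw [h6]
      linarith
    have h7 : η' / (‖α + β‖ * l) ≤ t / 2 := by
      have h8 : η' / (‖α + β‖ * l) ≤ η' / κ := div_le_div_of_nonneg_left hη'0.le hκ0 hωl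
      have h9 : η' / κ ≤ (κ * t / 2) / κ := div_le_div_of_nonneg_right hη'2 hκ0.le
      have h10 : (κ * t / 2) / κ = t / 2 := by field_simp
      linarith
    linarith
  -- the Gamma factors
  have hg := hG3 α β u (hα.trans (by rw [div_le_iff₀ hΛ0]; linarith))
    (hβ.trans (by rw [div_le_iff₀ hΛ0]; linarith))
  set g : ℂ := Gamma (1 - (1 / 2 + α + u * I)) * Gamma (1 - (1 / 2 + β - u * I)) /
      (Gamma (1 / 2 + α + u * I) * Gamma (1 / 2 + β - u * I)) with hgdef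
  have hU : (1 : ℝ) ≤ (1 + |u|) ^ B := Real.one_le_rpow (by linarith [abs_nonneg u]) hB
  have hg' : ‖g - 1‖ ≤ t * (1 + |u|) ^ B := by
    refine hg.trans (mul_le_mul_of_nonneg_right ?_ (by linarith))
    have h4 : ‖α‖ + ‖β‖ ≤ 2 * C₀ / Λ := by
      have := add_le_add hα hβ
      refine this.trans (le_of_eq ?_)
      ring
    have h5 := mul_le_mul_of_nonneg_left h4 hC₃.le
    refine h5.trans ?_
    rw [← mul_div_assoc, div_le_iff₀ hΛ0]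
    rw [div_le_iff₀ ht0] at a3
    linarith
  -- the exponential factor
  have hA0 : 0 < cA K (qi K q) := by
    rw [(hcA q hq).1]
    positivity
  have hAC : ((cA K (qi K q) : ℝ) : ℂ) ≠ 0 := by exact_mod_cast hA0.ne'
  have hXf : Xf (cA K (qi K q)) (1 / 2 + α + u * I) (1 / 2 + β - u * I) =
      cexp (-(α + β) * (Lq K q : ℝ)) * g := by
    unfold Xf
    rw [← hgdef]
    congr 1
    rw [Complex.cpow_def_of_ne_zero hAC, ← Complex.ofReal_log hA0.le]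
    congr 1
    unfold Lq
    push_cast
    ring
  have hxn : ‖cexp (-(α + β) * (Lq K q : ℝ))‖ ≤ X₀ := by
    rw [Complex.norm_exp, hX₀]
    refine Real.exp_le_exp.2 ((Complex.re_le_norm _).trans ?_)
    rw [norm_mul, norm_neg, Complex.norm_real, Real.norm_eq_abs, abs_of_nonneg (by linarith)]
    have h4 := mul_le_mul hωup l3 (by linarith) (by positivity)
    refine h4.trans (le_of_eq ?_)
    field_simp
    ring
  have hfin := combine (α + β) (Pool.Agent.H65.CRZ.FF α β l) (Pool.Agent.H65.CRZ.FF (-α) (-β) l) _ _ g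
    (cexp (-(α + β) * (Lq K q : ℝ))) l t ((1 + |u|) ^ B) X₀ C₁ κ η hl0 ht0.le ht1 hU hxn hκ0 hωl
    hF₂ (t₁.trans hδ) (t₂.trans hδ) hg' hC₁0.le htD
  rw [hXf]
  unfold Bm
  exact hfin

end Pool.Agent.H23.CRZ
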