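import Pool.Agent.H65.CRZ.TD
import Pool.Agent.H33.CV.AF2
import Pool.Agent.H86.CV.DV
import Pool.Agent.H96.CV.DS

/-!
# (DS) all relations which come from ideals of `ℚ`
-/

set_option autoImplicit false

open NumberField NumberField.InfinitePlace Complex Filter Topology MeasureTheory

namespace Pool.Agent.H23.CRZ

open Pool.Agent.H28.RC Pool.Agent.H25.HK Pool.Agent.H37.CV Pool.Agent.H65.CRZ

theorem pf_DS (h1 : Pool.Agent.H65.CRZ.T_DT) (h2 : Pool.Agent.H65.CRZ.T_CQ) :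
    Pool.Agent.H65.CRZ.T_DS := by
  classical
  intro K _ _ _ hK2
  obtain ⟨C₁, B, hC₁, hB, hD⟩ := h1 K (1 / 512) 1 (by norm_num) (by norm_num)
  obtain ⟨-, c, hc, hcq⟩ := h2 K hK2
  obtain ⟨C₂, hC₂1, -, hC₂⟩ := (Pool.Agent.H86.CV.pf_DV K).1 (1 / 128) (by norm_num)
  set f : NI (Kp K) → ℝ := fun y => nm y.1 ^ (-(1 + 1 / 64) : ℝ) with hf
  have hfs : Summable f := Pool.Agent.H33.CV.nm_summable (by norm_num)
  have hf0 : ∀ y, 0 ≤ f y := fun y => Real.rpow_nonneg (Pool.Agent.H96.CV.nm_pos y.2).le _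
  set F : NI (Kp K) × NI (Kp K) → ℝ := fun z => f z.1 * f z.2 with hF
  have hFs : Summable F := hfs.mul_of_nonneg hfs hf0 hf0
  have hF0 : ∀ z, 0 ≤ F z := fun z => mul_nonneg (hf0 _) (hf0 _)
  have hS0 : 0 ≤ ∑' z, F z := tsum_nonneg hF0
  set D : ℝ := C₁ * C₂ ^ 2 * (c ^ 2) ^ (1 / 32 : ℝ) with hDd
  have hD0 : 0 ≤ D := by positivity
  obtain ⟨q₀, hq₀⟩ := exists_nat_ge (1 / c)
  refine ⟨1 / 512, D * (∑' z, F z) + 1, B, by norm_num, by norm_num, by positivity, hB, q₀, ?_⟩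
  intro ε₁ q hε₁ hε₁' hq hqq s₁ s₂ c₁ c₂ hs₁ hs₂ hc₁ hc₂ X hX
  have hq1 : (1 : ℝ) ≤ q := by exact_mod_cast hq.one_le
  have hq0 : (0 : ℝ) < q := by linarith
  have hcq1 : 1 ≤ c * q := by
    have h3 : 1 / c ≤ q := hq₀.trans (by exact_mod_cast hqq)
    rw [div_le_iff₀ hc] at h3
    linarith
  set Q : ℝ := cA K (qi K q) ^ 2 with hQ
  have hQe : Q = c ^ 2 * (q : ℝ) ^ 2 := by rw [hQ, (hcq q hq).1]; ring
  have hQ1 : 1 ≤ Q := by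
    rw [hQ, (hcq q hq).1]
    exact one_le_pow₀ hcq1
  set M : ℝ := Mq ε₁ q with hM
  have hM1 : 1 ≤ M := Real.one_le_rpow hq1 (by linarith)
  have hMq : M ≤ q := by
    conv_rhs => rw [← Real.rpow_one (q : ℝ)]
    exact Real.rpow_le_rpow_of_exponent_le hq1 (by linarith)
  have hQM1 : Q * M ^ 2 ≤ c ^ 2 * (q : ℝ) ^ 4 := by
    rw [hQe]
    have : M ^ 2 ≤ (q : ℝ) ^ 2 := pow_le_pow_left₀ (by linarith) hMq 2
    calc c ^ 2 * (q : ℝ) ^ 2 * M ^ 2 ≤ c ^ 2 * (q : ℝ) ^ 2 * (q : ℝ) ^ 2 := by gcongr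
      _ = _ := by ring
  have hQM : (Q * M ^ 2) ^ (1 / 64 : ℝ) * (Q * M ^ 2) ^ (1 / 64 : ℝ) ≤
      (c ^ 2) ^ (1 / 32 : ℝ) * (q : ℝ) ^ (1 / 8 : ℝ) := by
    rw [← Real.rpow_add (by positivity)]
    calc (Q * M ^ 2) ^ (1 / 64 + 1 / 64 : ℝ) ≤ (c ^ 2 * (q : ℝ) ^ 4) ^ (1 / 64 + 1 / 64 : ℝ) :=
          Real.rpow_le_rpow (by positivity) hQM1 (by norm_num)
      _ = (c ^ 2) ^ (1 / 64 + 1 / 64 : ℝ) * (q : ℝ) ^ (((4 : ℕ) : ℝ) * (1 / 64 + 1 / 64 : ℝ)) := by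
          rw [Real.mul_rpow (by positivity) (by positivity), ← Real.rpow_natCast (q : ℝ),
            ← Real.rpow_mul hq0.le]
      _ = _ := by norm_num
  set Y : ℝ := (1 + |s₁.im| + |s₂.im|) ^ B with hY
  have hY1 : 1 ≤ Y := by
    refine Real.one_le_rpow ?_ hB
    have := abs_nonneg s₁.im
    have := abs_nonneg s₂.im
    linarith
  -- the choice of the pairs
  have hch : ∀ p ∈ X, ∃ z : NI (Kp K) × NI (Kp K), Real2 p z.1.1 z.2.1 := by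
    intro p hp
    obtain ⟨-, y₁, y₂, h⟩ := hX p hp
    exact ⟨(⟨y₁, h.1⟩, ⟨y₂, h.2.1⟩), h⟩
  have hne : Nonempty (NI (Kp K) × NI (Kp K)) := ⟨(⟨⊤, top_ne_bot⟩, ⟨⊤, top_ne_bot⟩)⟩
  choose! g hg using hch
  have hinj : Set.InjOn g X := by
    intro p hp p' hp' h
    have h1 := hg p hp
    have h2 := hg p' hp'
    rw [← h] at h2
    exact Prod.ext (h1.2.2.1.trans h2.2.2.1.symm) (h1.2.2.2.1.trans h2.2.2.2.1.symm)
  have hterm : ∀ p ∈ X, ‖Dg (qi K q) Q M s₁ s₂ c₁ c₂ p.1 p.2‖ ≤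
      D * Y * (q : ℝ) ^ (1 / 8 : ℝ) * F (g p) := by
    intro p hp
    obtain ⟨a1, a2, a3, a4, a5, a6⟩ := hg p hp
    have hy1 := Pool.Agent.H96.CV.one_le_nm a1
    have hy2 := Pool.Agent.H96.CV.one_le_nm a2
    set Y1 : ℝ := nm (g p).1.1 with hY1
    set Y2 : ℝ := nm (g p).2.1 with hY2
    have hI0 : p.1 ≠ ⊥ := by
      intro h0
      rw [h0] at a5
      have : nm (⊥ : Ideal (𝓞 K)) = 0 := by unfold nm; simp
      rw [this] at a5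
      have h2 : 0 < Y1 ^ 2 := pow_pos (by linarith) 2
      linarith
    have hJ0 : p.2 ≠ ⊥ := by
      intro h0
      rw [h0] at a6
      have : nm (⊥ : Ideal (𝓞 K)) = 0 := by unfold nm; simp
      rw [this] at a6
      have h2 : 0 < Y2 ^ 2 := pow_pos (by linarith) 2
      linarith
    have h1 := hD (qi K q) Q M s₁ s₂ c₁ c₂ p.1 p.2 hQ1 hM1 hs₁ hs₂ hc₁ hc₂ hI0 hJ0 (hX p hp).1
    set W : ℝ := Y1 * Y2 with hW
    have hW1 : 1 ≤ W := one_le_mul_of_one_le_of_one_le hy1 hy2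
    have hW0 : 0 < W := by linarith
    have hnn : nm p.1 * nm p.2 = W ^ 2 := by rw [a5, a6, hW]; ring
    have hpf : (2 : ℝ) ^ ((pf p.1).card + (pf p.2).card) ≤ C₂ ^ 2 * W ^ (1 / 64 : ℝ) := by
      rw [pow_add]
      have b1 := hC₂ p.1 hI0
      have b2 := hC₂ p.2 hJ0
      have b3 : nm p.1 ^ (1 / 128 : ℝ) * nm p.2 ^ (1 / 128 : ℝ) = W ^ (1 / 64 : ℝ) := by
        rw [← Real.mul_rpow (Pool.Agent.H96.CV.nm_pos hI0).le (Pool.Agent.H96.CV.nm_pos hJ0).le,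
          hnn, ← Real.rpow_natCast, ← Real.rpow_mul hW0.le]
        norm_num
      calc (2 : ℝ) ^ (pf p.1).card * 2 ^ (pf p.2).card
          ≤ (C₂ * nm p.1 ^ (1 / 128 : ℝ)) * (C₂ * nm p.2 ^ (1 / 128 : ℝ)) :=
            mul_le_mul b1 b2 (by positivity) (le_trans (by positivity) b1)
        _ = C₂ ^ 2 * (nm p.1 ^ (1 / 128 : ℝ) * nm p.2 ^ (1 / 128 : ℝ)) := by ring
        _ = _ := by rw [b3]
    have hmin : min 1 ((Q * M ^ 2 / (nm p.1 * nm p.2)) ^ 1) ≤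
        (Q * M ^ 2) ^ (1 / 64 : ℝ) * W ^ (-(1 / 32) : ℝ) := by
      rw [pow_one, hnn]
      refine (Pool.Agent.H96.CV.min_one_le_rpow (θ := 1 / 64) (by positivity) (by positivity)
        (by norm_num)).trans (le_of_eq ?_)
      rw [Real.div_rpow (by positivity) (by positivity), div_eq_mul_inv,
        ← Real.rpow_natCast W, ← Real.rpow_mul hW0.le, ← Real.rpow_neg hW0.le]
      norm_num
    have hww : (nm p.1 * nm p.2) ^ (-(1 / 2) : ℝ) = W ^ (-1 : ℝ) := by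
      rw [hnn, ← Real.rpow_natCast, ← Real.rpow_mul hW0.le]
      norm_num
    rw [hww] at h1
    have hWF : F (g p) = W ^ (-1 : ℝ) * W ^ (1 / 64 : ℝ) * W ^ (-(1 / 32) : ℝ) := by
      rw [← Real.rpow_add hW0, ← Real.rpow_add hW0,
        show (-1 + 1 / 64 + -(1 / 32) : ℝ) = -(1 + 1 / 64) by norm_num]
      simp only [hF, hf]
      rw [← Real.mul_rpow (by linarith) (by linarith)]
    have h88 : (Q * M ^ 2) ^ (8 * (1 / 512) : ℝ) = (Q * M ^ 2) ^ (1 / 64 : ℝ) := by norm_num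
    rw [h88] at h1
    have hmin0 : 0 ≤ min 1 ((Q * M ^ 2 / (nm p.1 * nm p.2)) ^ 1) := by
      refine le_min zero_le_one ?_
      rw [hnn]
      positivity
    calc ‖Dg (qi K q) Q M s₁ s₂ c₁ c₂ p.1 p.2‖
        ≤ C₁ * Y * W ^ (-1 : ℝ) * 2 ^ ((pf p.1).card + (pf p.2).card) *
          (Q * M ^ 2) ^ (1 / 64 : ℝ) * min 1 ((Q * M ^ 2 / (nm p.1 * nm p.2)) ^ 1) := h1
      _ ≤ C₁ * Y * W ^ (-1 : ℝ) * (C₂ ^ 2 * W ^ (1 / 64 : ℝ)) *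
          (Q * M ^ 2) ^ (1 / 64 : ℝ) * ((Q * M ^ 2) ^ (1 / 64 : ℝ) * W ^ (-(1 / 32) : ℝ)) := by
          gcongr
      _ = C₁ * C₂ ^ 2 * Y * ((Q * M ^ 2) ^ (1 / 64 : ℝ) * (Q * M ^ 2) ^ (1 / 64 : ℝ)) *
          (W ^ (-1 : ℝ) * W ^ (1 / 64 : ℝ) * W ^ (-(1 / 32) : ℝ)) := by ring
      _ ≤ C₁ * C₂ ^ 2 * Y * ((c ^ 2) ^ (1 / 32 : ℝ) * (q : ℝ) ^ (1 / 8 : ℝ)) *
          (W ^ (-1 : ℝ) * W ^ (1 / 64 : ℝ) * W ^ (-(1 / 32) : ℝ)) := by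
          gcongr
      _ = D * Y * (q : ℝ) ^ (1 / 8 : ℝ) * F (g p) := by rw [hWF, hDd]; ring
  have hq8 : (q : ℝ) ^ (1 / 8 : ℝ) ≤ (q : ℝ) ^ (1 / 4 : ℝ) :=
    Real.rpow_le_rpow_of_exponent_le hq1 (by norm_num)
  calc ∑ p ∈ X, ‖Dg (qi K q) Q M s₁ s₂ c₁ c₂ p.1 p.2‖
      ≤ ∑ p ∈ X, D * Y * (q : ℝ) ^ (1 / 8 : ℝ) * F (g p) := Finset.sum_le_sum hterm
    _ = D * Y * (q : ℝ) ^ (1 / 8 : ℝ) * ∑ z ∈ X.image g, F z := by
        rw [Finset.sum_image hinj, Finset.mul_sum]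
    _ ≤ D * Y * (q : ℝ) ^ (1 / 8 : ℝ) * ∑' z, F z := by
        refine mul_le_mul_of_nonneg_left ?_ (by positivity)
        exact hFs.sum_le_tsum _ fun z _ => hF0 z
    _ = D * (∑' z, F z) * Y * (q : ℝ) ^ (1 / 8 : ℝ) := by ring
    _ ≤ (D * (∑' z, F z) + 1) * Y * (q : ℝ) ^ (1 / 4 : ℝ) := by
        have e1 : D * (∑' z, F z) ≤ D * (∑' z, F z) + 1 := by linarith
        have e0 : 0 ≤ D * (∑' z, F z) := mul_nonneg hD0 hS0
        gcongr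

end Pool.Agent.H23.CRZ
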